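import Pool.Agent.helper64.AX.SpecD

/-!
# DRS (project AX, MP_2e0e07_nt): the image in `PGL_2` of an irreducible representation

If the image of `S` is finite, `S` is irreducible and some `S s` has order `p`, then the image in `PGL_2` (as permutations of
the projective line) is finite, of order divisible by `p`, and has no fixed point.
-/

set_option autoImplicit false

namespace Pool.Agent.AX

open Matrix

theorem DRS (hPMK : PMK_stmt) : DRS_stmt := by
  intro p hp κ _ _ _ Γ _ S hfin hirr hord
  obtain ⟨hscal, -, -⟩ := hPMK κ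
  refine ⟨?_, ?_, ?_⟩
  · have h1 : (((pm κ).comp S).range : Set (Equiv.Perm (OnePoint κ))) = (pm κ) '' (Set.range S) := by
      rw [MonoidHom.coe_range, MonoidHom.coe_comp, Set.range_comp]
    rw [h1]
    exact hfin.image _
  · obtain ⟨s, hs⟩ := hord
    have hpow : (S s) ^ p = 1 := by
      rw [← hs]
      exact pow_orderOf_eq_one _
    have h1 : pm κ (S s) ≠ 1 := by
      intro h
      obtain ⟨c, hc⟩ := (hscal (S s)).mp h
      have h2 : ((S s : GL (Fin 2) κ) : Matrix (Fin 2) (Fin 2) κ) ^ p = 1 := by
        have h3 := congrArg (fun g : GL (Fin 2) κ => (g : Matrix (Fin 2) (Fin 2) κ)) hpow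
        simpa using h3
      rw [hc, smul_pow, one_pow] at h2
      have h4 : c ^ p = 1 := by
        have h5 := congrArg (fun M : Matrix (Fin 2) (Fin 2) κ => M 0 0) h2
        simpa using h5
      have h6 : (c - 1) ^ p = 0 := by
        rw [sub_pow_char, h4, one_pow, sub_self]
      have h7 : c = 1 := sub_eq_zero.mp (pow_eq_zero_iff hp.out.ne_zero |>.mp h6)
      have h8 : S s = 1 := by
        apply Units.ext
        rw [hc, h7, one_smul]
        rfl
      rw [h8, orderOf_one] at hs
      exact hp.out.one_lt.ne hs
    have h2 : (pm κ (S s)) ^ p = 1 := by rw [← map_pow, hpow, map_one]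
    have h3 : orderOf (pm κ (S s)) = p := orderOf_eq_prime h2 h1
    have h4 : pm κ (S s) ∈ ((pm κ).comp S).range := ⟨s, rfl⟩
    have h5 := Subgroup.orderOf_dvd_natCard _ h4
    rwa [h3] at h5
  · intro z
    induction z using OnePoint.rec with
    | infty =>
      obtain ⟨g, hg⟩ := hirr ![1, 0] (by
        intro h
        have h1 := congrFun h 0
        simp at h1)
      refine ⟨pm κ (S g), ⟨g, rfl⟩, ?_⟩
      have h10 : (S g) 1 0 ≠ 0 := by
        intro h0
        apply hg ((S g) 0 0)
        ext i
        fin_cases i
        · simp [Matrix.mulVec, dotProduct, Fin.sum_univ_two]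
        · simp [Matrix.mulVec, dotProduct, Fin.sum_univ_two, h0]
      rw [(pm_infty (S g)).2 h10]
      exact OnePoint.coe_ne_infty _
    | coe k =>
      obtain ⟨g, hg⟩ := hirr ![k, 1] (by
        intro h
        have h1 := congrFun h 1
        simp at h1)
      refine ⟨pm κ (S g), ⟨g, rfl⟩, ?_⟩
      by_cases h0 : (S g) 1 0 * k + (S g) 1 1 = 0
      · rw [(pm_some (S g) k).1 h0]
        exact OnePoint.infty_ne_coe _
      · rw [(pm_some (S g) k).2 h0]
        intro h1
        have h2 : ((S g) 0 0 * k + (S g) 0 1) / ((S g) 1 0 * k + (S g) 1 1) = k := OnePoint.coe_eq_coe.mp h1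
        rw [div_eq_iff h0] at h2
        apply hg ((S g) 1 0 * k + (S g) 1 1)
        ext i
        fin_cases i
        · simp [Matrix.mulVec, dotProduct, Fin.sum_univ_two]
          rw [h2]
          ring
        · simp [Matrix.mulVec, dotProduct, Fin.sum_univ_two]

end Pool.Agent.AX
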