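import Pool.Agent.helper64.AX.SpecR

/-!
# RFQ (project AX, MP_2e0e07_nt): the crossing lemma for a finite quotient

The statement `CCR` (finite groups) applied to the finite quotient `M / (M ∩ ⋂ L a)`.
-/

set_option autoImplicit false

namespace Pool.Agent.AX

open Matrix

theorem RFQ_mem {G : Type} [Group G] (N : Subgroup G) [N.Normal] (K : Subgroup G) (hNK : N ≤ K) (g : G) :
    (QuotientGroup.mk' N g) ∈ K.map (QuotientGroup.mk' N) ↔ g ∈ K := by
  constructor
  · rintro ⟨x, hx, hxg⟩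
    have h1 : x⁻¹ * g ∈ N := QuotientGroup.eq.mp hxg
    have h2 := K.mul_mem hx (hNK h1)
    rwa [mul_inv_cancel_left] at h2
  · intro hg
    exact ⟨g, hg, rfl⟩

theorem RFQ (hCCR : CCR_stmt) : RFQ_stmt := by
  intro p _ m Γ G' _ _ ι _ q d κ _ _ _ r L φ M u t s hmp hdm hq hLn hLf hLr hrL hker hu ht hup htu
  have hQn : (⨅ a, L a).Normal := Subgroup.normal_iInf_normal hLn
  have hQf : (⨅ a, L a).FiniteIndex := Subgroup.finiteIndex_iInf hLf
  let Q : Subgroup M := (⨅ a, L a).subgroupOf M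
  have hQM : Q.Normal := Subgroup.normal_subgroupOf
  have hQMf : Q.FiniteIndex := inferInstance
  have hfinD : Finite (M ⧸ Q) := inferInstance
  have hQL : ∀ a, Q ≤ (L a).subgroupOf M := by
    intro a x hx
    rw [Subgroup.mem_subgroupOf] at hx ⊢
    exact (Subgroup.mem_iInf.mp hx) a
  let f : (M ⧸ Q) →* G' := QuotientGroup.lift Q (φ.comp M.subtype) (by
    intro x hx
    have h1 : (x : Γ) ∈ M ⊓ ⨅ a, L a := ⟨x.2, hx⟩
    exact hker h1)
  let R : ∀ a, (M ⧸ Q) →* GL (Fin (d a)) (κ a) := fun a =>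
    QuotientGroup.lift Q ((r a).toHomUnits.comp M.subtype) (by
      intro x hx
      apply Units.ext
      exact hLr a x (hQL a hx))
  refine hCCR p m (M ⧸ Q) G' ι q d κ R (fun a => ((L a).subgroupOf M).map (QuotientGroup.mk' Q)) f u t s
    hmp hdm hq ?_ ?_ ?_ ?_ ?_ hup htu
  · intro a
    have h1 : ((L a).subgroupOf M).Normal := by
      have := hLn a
      exact Subgroup.normal_subgroupOf
    exact Subgroup.Normal.map h1 _ (QuotientGroup.mk'_surjective Q)
  · intro g hg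
    obtain ⟨x, rfl⟩ := QuotientGroup.mk'_surjective Q g
    have h1 : x ∈ Q := by
      show x ∈ (⨅ a, L a).subgroupOf M
      rw [Subgroup.mem_subgroupOf, Subgroup.mem_iInf]
      intro a
      exact (RFQ_mem Q ((L a).subgroupOf M) (hQL a) x).mp (hg a)
    exact (QuotientGroup.eq_one_iff x).mpr h1
  · intro a g hg
    obtain ⟨x, rfl⟩ := QuotientGroup.mk'_surjective Q g
    have h1 : r a (x : Γ) = 1 := by
      have h2 := congrArg (fun y : GL (Fin (d a)) (κ a) => (y : Matrix (Fin (d a)) (Fin (d a)) (κ a))) hg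
      exact h2
    obtain ⟨k, hk⟩ := hrL a x h1
    refine ⟨k, ?_⟩
    rw [← map_pow]
    refine (RFQ_mem Q ((L a).subgroupOf M) (hQL a) _).mpr ?_
    rw [Subgroup.mem_subgroupOf]
    exact hk
  · obtain ⟨x, hx, hxu⟩ := hu
    exact ⟨QuotientGroup.mk' Q ⟨x, hx⟩, hxu⟩
  · obtain ⟨x, hx, hxu⟩ := ht
    exact ⟨QuotientGroup.mk' Q ⟨x, hx⟩, hxu⟩

end Pool.Agent.AX
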